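import Pool.Agent.V7H31.Ord.Moment

/-! Second moments of tensor constructions in several variables. -/

set_option autoImplicit false

namespace Pool.Agent.V7H31.Ord

open Finset

/-- weights of the group `∏ GL (r i)` -/
abbrev Wt {m : ℕ} (r : Fin m → ℕ) : Type := (i : Fin m) → Fin (r i) → ℤ

/-- the family `M` of weights is invariant under the permutations in each block -/
def Symm {m : ℕ} {r : Fin m → ℕ} (M : Multiset (Wt r)) : Prop :=
  ∀ (i : Fin m) (π : Equiv.Perm (Fin (r i))), (M.map fun μ => Function.update μ i (μ i ∘ π)) = M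

/-- the weights in `M` are not all scalar in the block `i` -/
def NonScal {m : ℕ} {r : Fin m → ℕ} (M : Multiset (Wt r)) (i : Fin m) : Prop :=
  ∃ μ ∈ M, ∃ k l : Fin (r i), μ i k ≠ μ i l

variable {m : ℕ} {r : Fin m → ℕ}

/-- the value of a weight -/
noncomputable def pair (μ : Wt r) (y : (i : Fin m) → Fin (r i) → ℝ) : ℝ := ∑ i, ∑ k, (μ i k : ℝ) * y i k

/-- the second moment -/
noncomputable def Q (M : Multiset (Wt r)) (y : (i : Fin m) → Fin (r i) → ℝ) : ℝ :=
  (M.map fun μ => pair μ y ^ 2).sum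

/-- the part of the value outside the block `j` -/
noncomputable def rest (j : Fin m) (y : (i : Fin m) → Fin (r i) → ℝ) (μ : Wt r) : ℝ :=
  ∑ i ∈ univ.erase j, ∑ k, (μ i k : ℝ) * y i k

theorem pair_eq (μ : Wt r) (y : (i : Fin m) → Fin (r i) → ℝ) (j : Fin m) :
    pair μ y = ∑ k, (μ j k : ℝ) * y j k + rest j y μ := by
  unfold pair rest
  exact (Finset.add_sum_erase univ (fun i => ∑ k, (μ i k : ℝ) * y i k) (Finset.mem_univ j)).symm

theorem rest_congr (j : Fin m) (y z : (i : Fin m) → Fin (r i) → ℝ) (h : ∀ i, i ≠ j → y i = z i) (μ : Wt r) :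
    rest j y μ = rest j z μ := by
  unfold rest
  apply Finset.sum_congr rfl
  intro i hi
  rw [h i (Finset.ne_of_mem_erase hi)]

theorem rest_update (j : Fin m) (y : (i : Fin m) → Fin (r i) → ℝ) (μ : Wt r) (f : Fin (r j) → ℤ) :
    rest j y (Function.update μ j f) = rest j y μ := by
  unfold rest
  apply Finset.sum_congr rfl
  intro i hi
  rw [Function.update_of_ne (Finset.ne_of_mem_erase hi)]

theorem inv_of {M : Multiset (Wt r)} (hM : Symm M) (j : Fin m) (y : (i : Fin m) → Fin (r i) → ℝ) :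
    Inv M (fun μ k => (μ j k : ℝ)) (rest j y) := by
  intro π
  refine ⟨fun k l => ?_, fun k => ?_⟩
  · conv_rhs => rw [← hM j π]
    rw [Multiset.map_map]
    congr 1
    apply Multiset.map_congr rfl
    intro μ _
    simp
  · conv_rhs => rw [← hM j π]
    rw [Multiset.map_map]
    congr 1
    apply Multiset.map_congr rfl
    intro μ _
    simp [rest_update]

/-- changing one block -/
theorem Q_diff {M : Multiset (Wt r)} (hM : Symm M) (j : Fin m) (y z : (i : Fin m) → Fin (r i) → ℝ)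
    (h : ∀ i, i ≠ j → y i = z i) (hs : ∑ k, y j k = ∑ k, z j k) (k₀ l₀ : Fin (r j)) (hkl : k₀ ≠ l₀) :
    Q M y - Q M z = (1 / 2 * (M.map fun μ => ((μ j k₀ : ℝ) - μ j l₀) ^ 2).sum) *
      (∑ k, y j k ^ 2 - ∑ k, z j k ^ 2) := by
  rw [← form_diff M (fun μ k => (μ j k : ℝ)) (rest j y) (inv_of hM j y) (y j) (z j) hs k₀ l₀ hkl]
  unfold Q
  congr 1
  · congr 1
    apply Multiset.map_congr rfl
    intro μ _
    rw [pair_eq μ y j]
  · congr 1
    apply Multiset.map_congr rfl
    intro μ _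
    rw [pair_eq μ z j, rest_congr j y z h]

theorem sq_sum_nonneg {M : Multiset (Wt r)} (j : Fin m) (k l : Fin (r j)) :
    0 ≤ (M.map fun μ => ((μ j k : ℝ) - μ j l) ^ 2).sum := by
  apply Multiset.sum_nonneg
  intro x hx
  obtain ⟨μ, -, rfl⟩ := Multiset.mem_map.1 hx
  positivity

theorem sq_sum_pos {M : Multiset (Wt r)} (j : Fin m) (k l : Fin (r j)) (μ : Wt r) (hμ : μ ∈ M)
    (h : μ j k ≠ μ j l) : 0 < (M.map fun μ => ((μ j k : ℝ) - μ j l) ^ 2).sum := by
  obtain ⟨M', rfl⟩ := Multiset.exists_cons_of_mem hμ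
  rw [Multiset.map_cons, Multiset.sum_cons]
  have h1 : (μ j k : ℝ) - μ j l ≠ 0 := by
    rw [sub_ne_zero]
    exact_mod_cast h
  have h2 : 0 < ((μ j k : ℝ) - μ j l) ^ 2 := by positivity
  have h3 := sq_sum_nonneg (M := M') j k l
  linarith

/-- `x` is an increasing sequence which lies above the sequence `h`, with the same end point -/
def AboveSeq {r : ℕ} (x h : Fin r → ℝ) : Prop := Monotone x ∧
  (∀ k ≤ r, ∑ i : Fin r, (if i.1 < k then h i else 0) ≤ ∑ i : Fin r, if i.1 < k then x i else 0) ∧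
  ∑ i, x i = ∑ i, h i

theorem AboveSeq.sq_le {r : ℕ} {x h : Fin r → ℝ} (H : AboveSeq x h) : ∑ k, x k ^ 2 ≤ ∑ k, h k ^ 2 := by
  have h1 := maj_sq x h H.1 H.2.1 H.2.2
  have h2 : 0 ≤ ∑ i, (h i - x i) ^ 2 := Finset.sum_nonneg fun i _ => sq_nonneg _
  linarith

theorem AboveSeq.eq_of {r : ℕ} {x h : Fin r → ℝ} (H : AboveSeq x h) (hq : ∑ k, h k ^ 2 ≤ ∑ k, x k ^ 2) :
    x = h := maj_eq x h H.1 H.2.1 H.2.2 hq

theorem AboveSeq.eq_of_small {r : ℕ} {x h : Fin r → ℝ} (H : AboveSeq x h) (hr : ¬ ∃ k l : Fin r, k ≠ l) :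
    x = h := by
  push Not at hr
  funext k
  have h1 := H.2.2
  have e : ∀ f : Fin r → ℝ, ∑ i, f i = f k := by
    intro f
    rw [Finset.sum_eq_single k]
    · intro b _ hb
      exact absurd (hr b k) hb
    · intro hk
      exact absurd (Finset.mem_univ k) hk
  rw [e, e] at h1
  exact h1

/-- **Tensor roots.** If the values of all weights in the symmetric family `M` at `x` and at `h` agree, as
multisets, and every block of `x` lies above the block of `h`, then `x` and `h` agree in every block in which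
`M` is not scalar. -/
theorem tensor_root {M : Multiset (Wt r)} (hM : Symm M) (x h : (i : Fin m) → Fin (r i) → ℝ)
    (hab : ∀ i, AboveSeq (x i) (h i)) (heq : Q M h ≤ Q M x) (i : Fin m) (hi : NonScal M i) : x i = h i := by
  -- the hybrid sequences
  obtain ⟨y, hy⟩ : ∃ y : ℕ → (i : Fin m) → Fin (r i) → ℝ, ∀ j i, y j i = if i.1 < j then h i else x i :=
    ⟨_, fun _ _ => rfl⟩
  have hy0 : y 0 = x := by
    funext i
    rw [hy, if_neg (by omega)]
  have hym : y m = h := by
    funext i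
    rw [hy, if_pos i.2]
  have hoff : ∀ (j : Fin m) (i : Fin m), i ≠ j → y j.1 i = y (j.1 + 1) i := by
    intro j i hne
    rw [hy, hy]
    have h1 : i.1 ≠ j.1 := fun h1 => hne (Fin.ext h1)
    by_cases h2 : i.1 < j.1
    · rw [if_pos h2, if_pos (by omega)]
    · rw [if_neg h2, if_neg (by omega)]
  have hj1 : ∀ j : Fin m, y j.1 j = x j := fun j => by rw [hy, if_neg (by omega)]
  have hj2 : ∀ j : Fin m, y (j.1 + 1) j = h j := fun j => by rw [hy, if_pos (by omega)]
  have hle : ∀ j : Fin m, Q M (y j.1) - Q M (y (j.1 + 1)) ≤ 0 := by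
    intro j
    by_cases hex : ∃ k l : Fin (r j), k ≠ l
    · obtain ⟨k, l, hkl⟩ := hex
      rw [Q_diff hM j _ _ (hoff j) (by rw [hj1, hj2]; exact (hab j).2.2) k l hkl, hj1, hj2]
      have h1 := sq_sum_nonneg (M := M) j k l
      have h2 := (hab j).sq_le
      apply mul_nonpos_of_nonneg_of_nonpos
      · positivity
      · linarith
    · have h1 := (hab j).eq_of_small hex
      have h2 : y j.1 = y (j.1 + 1) := by
        funext i
        by_cases hij : i = j
        · subst hij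
          rw [hj1, hj2, h1]
        · exact hoff j i hij
      rw [h2, sub_self]
  have htel : ∑ j : Fin m, (Q M (y j.1) - Q M (y (j.1 + 1))) = Q M x - Q M h := by
    rw [Fin.sum_univ_eq_sum_range (fun j => Q M (y j) - Q M (y (j + 1))) m, Finset.sum_range_sub', hy0, hym]
  have hzero : Q M (y i.1) - Q M (y (i.1 + 1)) = 0 := by
    by_contra hcon
    have h1 : Q M (y i.1) - Q M (y (i.1 + 1)) < 0 := lt_of_le_of_ne (hle i) hcon
    have h2 : ∑ j : Fin m, (Q M (y j.1) - Q M (y (j.1 + 1))) < 0 :=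
      Finset.sum_neg' (fun j _ => hle j) ⟨i, Finset.mem_univ _, h1⟩
    rw [htel] at h2
    linarith
  obtain ⟨μ, hμ, k, l, hne⟩ := hi
  have hkl : k ≠ l := fun e => hne (by rw [e])
  rw [Q_diff hM i _ _ (hoff i) (by rw [hj1, hj2]; exact (hab i).2.2) k l hkl, hj1, hj2] at hzero
  have h1 := sq_sum_pos (M := M) i k l μ hμ hne
  apply (hab i).eq_of
  have h3 : (1 / 2 * (M.map fun μ => ((μ i k : ℝ) - μ i l) ^ 2).sum) ≠ 0 := by positivity
  have h4 := (mul_eq_zero.1 hzero).resolve_left h3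
  linarith

end Pool.Agent.V7H31.Ord
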