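import Pool.Agent.V7H31.Ord.Defect

/-! The saturated tensor closure of a family of motives. -/

set_option autoImplicit false

namespace Pool.Agent.V7H31.Ord

open NumberField IsDedekindDomain Polynomial Finset
open Pool.Agent.W401.Cheb Pool.Agent.W528.Ord Pool.Agent.R915.Ord Pool.Agent.W850.Ord
open MultSystem (IsDeg1 IsOver norm_mem)

section

variable {K : Type} [Field K] [NumberField K] {ℓ : ℕ} [Fact ℓ.Prime] {ι : Type}

/-- **The saturated tensor closure** of the motives `A i`, at the places in `Pl`: the smallest class of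
systems which contains the pieces of the `A i` and the systems of rank one, and which is stable under

* tensor constructions (sums, tensor products, duals, all Schur functors, in several variables), and
* tensor roots: if ONE tensor construction of the systems `V 0, …, V (m - 1)` is in the class, and if it is
  not scalar in the variable `V i`, then `V i` is in the class. (The direct summands are a special case.) -/
inductive Cl (A : ι → MotSystem K ℓ) (Pl : Set (HeightOneSpectrum (𝓞 K))) : Sys K → Prop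
  | piece (x : Piece A) (X : Sys K)
      (hH : X.H = ((A x.1).h x.2 : Multiset ℕ).map fun a : ℕ => (a : ℤ))
      (hR : ∀ v ∈ Pl, X.R v = ((A x.1).poly v x.2).roots) : Cl A Pl X
  | line (X : Sys K) (hX : ∀ v ∈ Pl, NewtonAboveHodge X v) (hH : Multiset.card X.H = 1) : Cl A Pl X
  | tensor {m : ℕ} (r : Fin m → ℕ) (M : Multiset (Wt r)) (V : Fin m → Sys K) (X : Sys K)
      (hT : IsTensor Pl r M V X) (hV : ∀ i, Cl A Pl (V i)) : Cl A Pl X
  | root {m : ℕ} (r : Fin m → ℕ) (M : Multiset (Wt r)) (V : Fin m → Sys K) (X : Sys K)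
      (hT : IsTensor Pl r M V X) (hV : ∀ i, ∀ v ∈ Pl, NewtonAboveHodge (V i) v) (hX : Cl A Pl X)
      (i : Fin m) (hi : NonScal M i) : Cl A Pl (V i)

theorem hasSlopes_line {q : ℝ} (N : Multiset ℝ) (H : Multiset ℤ) (hA : Above q N H)
    (hH : Multiset.card H = 1) : HasSlopes q N H := by
  obtain ⟨a, ha⟩ := Multiset.card_eq_one.1 hH
  obtain ⟨t, ht⟩ := Multiset.card_eq_one.1 (hA.card.trans hH)
  have h1 := hA.endpt
  rw [ha, ht, Multiset.prod_singleton, Multiset.sum_singleton] at h1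
  unfold HasSlopes
  rw [ha, ht, Multiset.map_singleton, h1]

/-- All systems in the saturated tensor closure are ordinary where the pieces are. -/
theorem cl_ord [Fintype ι] (A : ι → MotSystem K ℓ) (χ : GK K →* (PadicAlgCl ℓ)ˣ) (S : ι → Finset ℕ)
    (hA : ∀ i, (A i).IsMotive χ (S i)) (Pl : Set (HeightOneSpectrum (𝓞 K)))
    {v : HeightOneSpectrum (𝓞 K)} (hv : v ∈ Pl) (hvS : ∀ i, IsDeg1 (S i) v)
    {Q : Ideal (𝓞 (AlgebraicClosure K))} (hQ : IsOver Q v) {p : ℕ} [Fact p.Prime]
    (hpe : Ideal.absNorm v.asIdeal = p) {τ : AlgebraicClosure K →+* PadicAlgCl p}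
    (hτ : ∀ x : 𝓞 (AlgebraicClosure K), x ∈ Q ↔ ‖τ (x : AlgebraicClosure K)‖ < 1)
    (hno : NoExcess A v Q) (X : Sys K) (hX : Cl A Pl X) :
    HasSlopes (Ideal.absNorm v.asIdeal : ℝ) ((X.R v).map fun y => ‖τ y‖) X.H := by
  induction hX with
  | piece x X hH hR =>
    have h1 := MotSystem.roots_part (hA x.1) (hvS x.1) hQ hpe hτ x.2 (fun k hk => hno x.1 x.2 k hk)
    unfold HasSlopes
    rw [hR v hv, hH, Multiset.map_map]
    have e : (A x.1).poly v (τ.comp x.2) = ((A x.1).poly v x.2).map τ := by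
      unfold MotSystem.poly
      rw [Polynomial.map_map]
      rfl
    rw [e, Splits.roots_map (IsAlgClosed.splits _), Multiset.map_map] at h1
    refine Eq.trans ?_ (h1.trans ?_)
    · rfl
    · apply Multiset.map_congr rfl
      intro a _
      simp only [Function.comp]
      rw [hpe, zpow_neg, zpow_natCast, one_div, inv_pow]
  | line X hX hH => exact hasSlopes_line _ _ (hX v hv p τ ⟨Q, hQ, hτ⟩) hH
  | tensor r M V X hT _ ih => exact ord_tensor hT hv τ ih
  | root r M V X hT hV _ i hi ih =>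
    exact ord_root hT hv τ (fun j => hV j v hv p τ ⟨Q, hQ, hτ⟩) ih i (Or.inl hi)

end

section down

variable {K₀ K : Type} [Field K₀] [NumberField K₀] [Field K] [NumberField K] [Algebra K₀ K]
    {ℓ : ℕ} [Fact ℓ.Prime] {ι : Type}

/-- `K₀`-rational Frobenius polynomials `F` and Hodge slopes `H` which are potentially in the saturated
tensor closure of the motives `A i` over the extension `K` of `K₀`, at the places of degree one with residue
characteristic not in `T`. -/
def InClosure (A : ι → MotSystem K ℓ) (T : Finset ℕ) (F : HeightOneSpectrum (𝓞 K₀) → ℤ[X])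
    (H : Multiset ℕ) : Prop :=
  ∃ X : Sys K, Cl A {v | IsDeg1 T v} X ∧ X.H = (H.map fun a : ℕ => (a : ℤ)) ∧
    ∀ (v₀ : HeightOneSpectrum (𝓞 K₀)) (v : HeightOneSpectrum (𝓞 K)),
      v.asIdeal.comap (algebraMap (𝓞 K₀) (𝓞 K)) = v₀.asIdeal → IsDeg1 T v →
      X.R v = ((F v₀).map (Int.castRingHom (AlgebraicClosure K))).roots

theorem newton_of_closure [Fintype ι] (A : ι → MotSystem K ℓ) (χ : GK K →* (PadicAlgCl ℓ)ˣ)
    (S : ι → Finset ℕ) (hA : ∀ i, (A i).IsMotive χ (S i)) {T : Finset ℕ}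
    {F : HeightOneSpectrum (𝓞 K₀) → ℤ[X]} {H : Multiset ℕ}
    (hF : InClosure A T F H) (v₀ : HeightOneSpectrum (𝓞 K₀)) (v : HeightOneSpectrum (𝓞 K))
    (h0 : v.asIdeal.comap (algebraMap (𝓞 K₀) (𝓞 K)) = v₀.asIdeal) (hv : Good A S v)
    (hvT : Ideal.absNorm v.asIdeal ∉ T) :
    NewtonSlopes (Ideal.absNorm v₀.asIdeal) (F v₀) H := by
  obtain ⟨hv1, hvS, Q, hQ, hno⟩ := hv
  obtain ⟨X, hX, hH, hR⟩ := hF
  rw [under_norm v hv1 v₀ h0]
  obtain ⟨p, hpe⟩ : ∃ p, Ideal.absNorm v.asIdeal = p := ⟨_, rfl⟩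
  have hpp : p.Prime := hpe ▸ hv1
  haveI : Fact p.Prime := ⟨hpp⟩
  have hpQ := norm_mem hv1 hQ.2
  rw [hpe] at hpQ
  obtain ⟨τ, hτ⟩ := exists_tau (p := p) Q hQ.1 hpQ
  have hdeg : IsDeg1 T v := ⟨hv1, hvT⟩
  have key := cl_ord A χ S hA {v | IsDeg1 T v} (v := v) hdeg (fun i => ⟨hv1, hvS i⟩) hQ hpe hτ hno X hX
  unfold HasSlopes at key
  rw [hR v₀ v h0 hdeg, hH, Multiset.map_map, hpe] at key
  rw [hpe]
  refine ⟨inferInstance, ?_⟩
  have e : (F v₀).map (Int.castRingHom (PadicAlgCl p)) =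
      ((F v₀).map (Int.castRingHom (AlgebraicClosure K))).map τ := by
    rw [Polynomial.map_map]
    congr 1
    exact (RingHom.ext_int _ _)
  rw [e, Splits.roots_map (IsAlgClosed.splits _), Multiset.map_map]
  refine Eq.trans ?_ (key.trans ?_)
  · rfl
  · apply Multiset.map_congr rfl
    intro a _
    simp only [Function.comp]
    rw [zpow_neg, zpow_natCast, one_div, inv_pow]

end down

end Pool.Agent.V7H31.Ord
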