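import Pool.Agent.V7H31.Ord.Sys

/-! The quadratic defect: an exact law for tensor constructions. -/

set_option autoImplicit false

namespace Pool.Agent.V7H31.Ord

open NumberField IsDedekindDomain Polynomial Finset
open Pool.Agent.W401.Cheb Pool.Agent.W528.Ord Pool.Agent.R915.Ord Pool.Agent.W850.Ord
open MultSystem (IsDeg1 IsOver)

/-- The quadratic defect: the sum of the squares of the Hodge slopes minus the sum of the squares of the
Newton slopes. -/
noncomputable def defect (q : ℝ) (N : Multiset ℝ) (H : Multiset ℤ) : ℝ :=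
  (H.map fun a : ℤ => (a : ℝ) ^ 2).sum - (N.map fun t : ℝ => slope q t ^ 2).sum

/-- The index of the family of weights `M` in the block `i`: the mean value over all pairs `k ≠ l` of half
of the sum of the `(μ i k - μ i l) ^ 2`, `μ` in `M`. It vanishes if and only if all weights are scalar in the
block. -/
noncomputable def index {m : ℕ} {r : Fin m → ℕ} (M : Multiset (Wt r)) (i : Fin m) : ℝ :=
  (∑ k, ∑ l, (M.map fun μ => ((μ i k : ℝ) - μ i l) ^ 2).sum) / (2 * (r i * (r i - 1)))

section

variable {m : ℕ} {r : Fin m → ℕ}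

theorem pair_sum_eq {M : Multiset (Wt r)} (hM : Symm M) (i : Fin m) (k l k' l' : Fin (r i)) (h : k ≠ l)
    (h' : k' ≠ l') : (M.map fun μ => ((μ i k : ℝ) - μ i l) ^ 2).sum =
      (M.map fun μ => ((μ i k' : ℝ) - μ i l') ^ 2).sum := by
  obtain ⟨π, h1, h2⟩ := exists_perm k' l' k l h' h
  conv_rhs => rw [← hM i π]
  rw [Multiset.map_map]
  congr 1
  apply Multiset.map_congr rfl
  intro μ _
  simp [h1, h2]

theorem index_eq {M : Multiset (Wt r)} (hM : Symm M) (i : Fin m) (k l : Fin (r i)) (h : k ≠ l) :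
    index M i = 1 / 2 * (M.map fun μ => ((μ i k : ℝ) - μ i l) ^ 2).sum := by
  obtain ⟨s, hs⟩ : ∃ s, s = (M.map fun μ => ((μ i k : ℝ) - μ i l) ^ 2).sum := ⟨_, rfl⟩
  have e : ∀ k' l' : Fin (r i), (M.map fun μ => ((μ i k' : ℝ) - μ i l') ^ 2).sum =
      s - if k' = l' then s else 0 := by
    intro k' l'
    by_cases hkl : k' = l'
    · subst hkl
      simp
    · rw [if_neg hkl, sub_zero, hs]
      exact pair_sum_eq hM i k' l' k l hkl h
  have h2 : (2 : ℝ) ≤ r i := by
    have h3 : k.1 ≠ l.1 := fun e => h (Fin.ext e)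
    have h4 := k.2
    have h5 := l.2
    have : 2 ≤ r i := by omega
    exact_mod_cast this
  unfold index
  rw [← hs]
  have e2 : ∑ k' : Fin (r i), ∑ l' : Fin (r i), (M.map fun μ => ((μ i k' : ℝ) - μ i l') ^ 2).sum =
      (r i * (r i - 1)) * s := by
    have e3 : ∀ k' : Fin (r i), ∑ l' : Fin (r i), (M.map fun μ => ((μ i k' : ℝ) - μ i l') ^ 2).sum =
        r i * s - s := by
      intro k'
      simp only [e, Finset.sum_sub_distrib]
      simp
    simp only [e3]
    simp
    ring
  rw [e2]
  have h3 : (r i : ℝ) - 1 ≠ 0 := by linarith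
  have h4 : (r i : ℝ) ≠ 0 := by linarith
  field_simp

theorem index_pos {M : Multiset (Wt r)} (hM : Symm M) (i : Fin m) (h : NonScal M i) : 0 < index M i := by
  obtain ⟨μ, hμ, k, l, hne⟩ := h
  have hkl : k ≠ l := fun e => hne (by rw [e])
  rw [index_eq hM i k l hkl]
  have := sq_sum_pos (M := M) i k l μ hμ hne
  positivity

/-- the exact law for sequences -/
theorem Q_law {M : Multiset (Wt r)} (hM : Symm M) (x h : (i : Fin m) → Fin (r i) → ℝ)
    (hab : ∀ i, ∑ k, x i k = ∑ k, h i k) :
    Q M h - Q M x = ∑ i, index M i * (∑ k, h i k ^ 2 - ∑ k, x i k ^ 2) := by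
  -- the hybrid sequences
  obtain ⟨y, hy⟩ : ∃ y : ℕ → (i : Fin m) → Fin (r i) → ℝ, ∀ j i, y j i = if i.1 < j then h i else x i :=
    ⟨_, fun _ _ => rfl⟩
  have hy0 : y 0 = x := by
    funext i
    rw [hy, if_neg (by omega)]
  have hym : y m = h := by
    funext i
    rw [hy, if_pos i.2]
  have hoff : ∀ (j : Fin m) (i : Fin m), i ≠ j → y j.1 i = y (j.1 + 1) i := by
    intro j i hne
    rw [hy, hy]
    have h1 : i.1 ≠ j.1 := fun h1 => hne (Fin.ext h1)
    by_cases h2 : i.1 < j.1
    · rw [if_pos h2, if_pos (by omega)]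
    · rw [if_neg h2, if_neg (by omega)]
  have hj1 : ∀ j : Fin m, y j.1 j = x j := fun j => by rw [hy, if_neg (by omega)]
  have hj2 : ∀ j : Fin m, y (j.1 + 1) j = h j := fun j => by rw [hy, if_pos (by omega)]
  have htel : ∑ j : Fin m, (Q M (y j.1) - Q M (y (j.1 + 1))) = Q M x - Q M h := by
    rw [Fin.sum_univ_eq_sum_range (fun j => Q M (y j) - Q M (y (j + 1))) m, Finset.sum_range_sub', hy0, hym]
  have hstep : ∀ j : Fin m, Q M (y j.1) - Q M (y (j.1 + 1)) =
      - (index M j * (∑ k, h j k ^ 2 - ∑ k, x j k ^ 2)) := by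
    intro j
    by_cases hex : ∃ k l : Fin (r j), k ≠ l
    · obtain ⟨k, l, hkl⟩ := hex
      rw [Q_diff hM j _ _ (hoff j) (by rw [hj1, hj2]; exact hab j) k l hkl, hj1, hj2,
        index_eq hM j k l hkl]
      ring
    · have h1 : x j = h j := by
        push Not at hex
        funext k
        have h1 := hab j
        have e : ∀ f : Fin (r j) → ℝ, ∑ i, f i = f k := by
          intro f
          rw [Finset.sum_eq_single k]
          · intro b _ hb
            exact absurd (hex b k) hb
          · intro hk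
            exact absurd (Finset.mem_univ k) hk
        rw [e, e] at h1
        exact h1
      have h2 : y j.1 = y (j.1 + 1) := by
        funext i
        by_cases hij : i = j
        · subst hij
          rw [hj1, hj2, h1]
        · exact hoff j i hij
      rw [h2, h1]
      simp
  have h1 : Q M h - Q M x = -(Q M x - Q M h) := by ring
  rw [h1, ← htel, ← Finset.sum_neg_distrib]
  apply Finset.sum_congr rfl
  intro j _
  rw [hstep j, neg_neg]

end

section

variable {K : Type} [Field K] [NumberField K]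

theorem defect_eq {q : ℝ} {r : ℕ} (n : Fin r → ℝ) (h : Fin r → ℤ) :
    defect q (Finset.univ.val.map n) (Finset.univ.val.map h) =
      ∑ k, (h k : ℝ) ^ 2 - ∑ k, slope q (n k) ^ 2 := by
  unfold defect
  rw [Multiset.map_map, Multiset.map_map]
  rfl

/-- The defect is nonnegative, and it vanishes only if the Newton polygon is the Hodge polygon. -/
theorem defect_nonneg {q : ℝ} (hq : 1 < q) (N : Multiset ℝ) (H : Multiset ℤ) (hA : Above q N H) :
    0 ≤ defect q N H ∧ (defect q N H = 0 ↔ HasSlopes q N H) := by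
  obtain ⟨n, hn, hnm⟩ := exists_sorted N rfl (slope q)
  obtain ⟨h, hh, hhm⟩ := exists_sorted H hA.card.symm (fun a : ℤ => (a : ℝ))
  have hhm' : Monotone h := fun a b hab => Int.cast_le.1 (hhm hab)
  rw [← hn, ← hh] at hA
  have h1 := aboveSeq_of hq n h hnm hhm' hA
  have hpos : ∀ i, 0 < n i := fun i => hA.pos _ (Multiset.mem_map_of_mem n (Finset.mem_univ i))
  have hd : defect q N H = ∑ k, (h k : ℝ) ^ 2 - ∑ k, slope q (n k) ^ 2 := by
    rw [← defect_eq, hn, hh]
  refine ⟨?_, fun h2 => ?_, fun h2 => ?_⟩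
  · rw [hd]
    linarith [h1.sq_le]
  · rw [hd] at h2
    have h3 := hasSlopes_of hq n h hpos (h1.eq_of (by linarith))
    rw [hn, hh] at h3
    exact h3
  · unfold defect
    unfold HasSlopes at h2
    rw [h2, Multiset.map_map]
    rw [sub_eq_zero]
    congr 1
    apply Multiset.map_congr rfl
    intro a _
    simp only [Function.comp]
    rw [slope_zpow hq]

/-- **The exact law.** The quadratic defect of a tensor construction is the sum of the quadratic defects of
the systems, multiplied by the indices of the construction. -/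
theorem defect_law {Pl : Set (HeightOneSpectrum (𝓞 K))} {m : ℕ} {r : Fin m → ℕ} {M : Multiset (Wt r)}
    {V : Fin m → Sys K} {X : Sys K} (hT : IsTensor Pl r M V X) {v : HeightOneSpectrum (𝓞 K)} (hv : v ∈ Pl)
    {p : ℕ} [Fact p.Prime] (τ : AlgebraicClosure K →+* PadicAlgCl p)
    (hA : ∀ i, Above (Ideal.absNorm v.asIdeal : ℝ) (((V i).R v).map fun y => ‖τ y‖) (V i).H) :
    defect (Ideal.absNorm v.asIdeal : ℝ) ((X.R v).map fun y => ‖τ y‖) X.H =
      ∑ i, index M i * defect (Ideal.absNorm v.asIdeal : ℝ) (((V i).R v).map fun y => ‖τ y‖) (V i).H := by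
  obtain ⟨q, hq⟩ : ∃ q : ℝ, q = (Ideal.absNorm v.asIdeal : ℝ) := ⟨_, rfl⟩
  have hq1 : 1 < q := hq ▸ one_lt_norm v
  rw [← hq]
  simp only [← hq] at hA
  obtain ⟨x, h, hx, hh, hxm, hhm⟩ := exists_enum hT hv fun y => slope q ‖τ y‖
  have hx0 : ∀ i k, x i k ≠ 0 := fun i k =>
    hT.ne_zero i v hv _ (by rw [← hx i]; exact Multiset.mem_map_of_mem _ (Finset.mem_univ k))
  have hab : ∀ j, AboveSeq (fun k => slope q ‖τ (x j k)‖) (fun k => (h j k : ℝ)) := by
    intro j
    apply aboveSeq_of hq1 (fun k => ‖τ (x j k)‖) (h j) (hxm j) (hhm j)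
    have h1 := hA j
    rw [← hx j, ← hh j, Multiset.map_map] at h1
    exact h1
  have hd : ∀ i, defect q (((V i).R v).map fun y => ‖τ y‖) (V i).H =
      ∑ k, (h i k : ℝ) ^ 2 - ∑ k, slope q ‖τ (x i k)‖ ^ 2 := by
    intro i
    rw [← defect_eq (fun k => ‖τ (x i k)‖) (h i), ← hx i, ← hh i, Multiset.map_map]
    rfl
  simp only [hd]
  rw [← Q_law hT.symm (fun j k => slope q ‖τ (x j k)‖) (fun j k => (h j k : ℝ)) fun j => (hab j).2.2]
  unfold defect Q
  rw [hT.slopes h hh, hT.roots v hv x hx, Multiset.map_map, Multiset.map_map, Multiset.map_map]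
  congr 1
  · congr 1
    apply Multiset.map_congr rfl
    intro μ _
    simp only [Function.comp]
    congr 1
    unfold pair
    push_cast
    rfl
  · congr 1
    apply Multiset.map_congr rfl
    intro μ _
    simp only [Function.comp]
    rw [slope_weight τ μ x hx0]

end

end Pool.Agent.V7H31.Ord
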