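import Mathlib

/-! Second moments: majorization, and quadratic forms given by invariant families of weights. -/

set_option autoImplicit false

namespace Pool.Agent.V7H31.Ord

open Finset

/-- Abel summation: a monotone sequence against a sequence with nonnegative partial sums and total zero -/
theorem abel_nonpos (r : ℕ) (x d : ℕ → ℝ) (hx : ∀ i, i + 1 < r → x i ≤ x (i + 1))
    (hd : ∀ k ≤ r, 0 ≤ ∑ i ∈ range k, d i) (h0 : ∑ i ∈ range r, d i = 0) :
    ∑ i ∈ range r, x i * d i ≤ 0 := by
  have h1 := Finset.sum_range_by_parts x d r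
  simp only [smul_eq_mul] at h1
  rw [h1, h0, mul_zero, zero_sub, neg_nonpos]
  apply Finset.sum_nonneg
  intro i hi
  rw [mem_range] at hi
  apply mul_nonneg
  · have := hx i (by omega)
    linarith
  · exact hd (i + 1) (by omega)

/-- the extension of a function on `Fin r` by zero -/
def ext {r : ℕ} (f : Fin r → ℝ) (n : ℕ) : ℝ := if h : n < r then f ⟨n, h⟩ else 0

theorem ext_val {r : ℕ} (f : Fin r → ℝ) (i : Fin r) : ext f i.1 = f i := by
  unfold ext
  rw [dif_pos i.2]

theorem sum_ext {r : ℕ} (f : Fin r → ℝ) (k : ℕ) (hk : k ≤ r) :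
    ∑ i ∈ range k, ext f i = ∑ i : Fin r, if i.1 < k then f i else 0 := by
  have h1 : ∑ i : Fin r, (if i.1 < k then f i else 0) = ∑ i : Fin r, if i.1 < k then ext f i.1 else 0 := by
    apply Finset.sum_congr rfl
    intro i _
    rw [ext_val]
  rw [h1, Fin.sum_univ_eq_sum_range (fun i => if i < k then ext f i else 0) r, ← Finset.sum_filter]
  congr 1
  ext i
  simp only [mem_range, mem_filter]
  omega

/-- **Majorization and second moments.** -/
theorem maj_sq {r : ℕ} (x h : Fin r → ℝ) (hx : Monotone x)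
    (hle : ∀ k ≤ r, ∑ i : Fin r, (if i.1 < k then h i else 0) ≤ ∑ i : Fin r, if i.1 < k then x i else 0)
    (heq : ∑ i, x i = ∑ i, h i) :
    ∑ i, (h i - x i) ^ 2 ≤ ∑ i, h i ^ 2 - ∑ i, x i ^ 2 := by
  have key := abel_nonpos r (ext x) (fun n => ext x n - ext h n) ?_ ?_ ?_
  · rw [← Fin.sum_univ_eq_sum_range (fun n => ext x n * (ext x n - ext h n)) r] at key
    simp only [ext_val] at key
    have e : ∑ i, h i ^ 2 - ∑ i, x i ^ 2 = ∑ i, (h i - x i) ^ 2 - 2 * ∑ i, x i * (x i - h i) := by
      rw [Finset.mul_sum, ← Finset.sum_sub_distrib, ← Finset.sum_sub_distrib]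
      apply Finset.sum_congr rfl
      intro i _
      ring
    rw [e]
    linarith
  · intro i hi
    have h1 : ext x i = x ⟨i, by omega⟩ := by unfold ext; rw [dif_pos (by omega)]
    have h2 : ext x (i + 1) = x ⟨i + 1, hi⟩ := by unfold ext; rw [dif_pos hi]
    rw [h1, h2]
    exact hx (by rw [Fin.mk_le_mk]; omega)
  · intro k hk
    rw [Finset.sum_sub_distrib, sum_ext x k hk, sum_ext h k hk]
    linarith [hle k hk]
  · rw [Finset.sum_sub_distrib, sum_ext x r le_rfl, sum_ext h r le_rfl]
    have e : ∀ f : Fin r → ℝ, (∑ i : Fin r, if i.1 < r then f i else 0) = ∑ i, f i := by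
      intro f
      apply Finset.sum_congr rfl
      intro i _
      rw [if_pos i.2]
    rw [e, e, heq, sub_self]

/-- equality of the second moments forces equality -/
theorem maj_eq {r : ℕ} (x h : Fin r → ℝ) (hx : Monotone x)
    (hle : ∀ k ≤ r, ∑ i : Fin r, (if i.1 < k then h i else 0) ≤ ∑ i : Fin r, if i.1 < k then x i else 0)
    (heq : ∑ i, x i = ∑ i, h i) (hsq : ∑ i, h i ^ 2 ≤ ∑ i, x i ^ 2) : x = h := by
  have h1 := maj_sq x h hx hle heq
  have h2 : ∑ i, (h i - x i) ^ 2 = 0 :=
    le_antisymm (h1.trans (by linarith)) (Finset.sum_nonneg fun i _ => sq_nonneg _)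
  rw [Finset.sum_eq_zero_iff_of_nonneg (fun i _ => sq_nonneg _)] at h2
  funext i
  have h3 := h2 i (Finset.mem_univ _)
  have h4 : h i - x i = 0 := by
    exact pow_eq_zero_iff (two_ne_zero) |>.1 h3
  linarith

section form

variable {Ω : Type} (M : Multiset Ω) {r : ℕ} (e : Ω → Fin r → ℝ) (w : Ω → ℝ)

/-- `M` is invariant under the permutations of the coordinates `e`, for the joint second moments of
the coordinates and of `w` -/
def Inv : Prop := ∀ π : Equiv.Perm (Fin r),
  (∀ k l, (M.map fun μ => e μ (π k) * e μ (π l)).sum = (M.map fun μ => e μ k * e μ l).sum) ∧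
  ∀ k, (M.map fun μ => e μ (π k) * w μ).sum = (M.map fun μ => e μ k * w μ).sum

theorem exists_perm {r : ℕ} (k l k' l' : Fin r) (h : k ≠ l) (h' : k' ≠ l') :
    ∃ π : Equiv.Perm (Fin r), π k = k' ∧ π l = l' := by
  refine ⟨Equiv.swap (Equiv.swap k k' l) l' * Equiv.swap k k', ?_, ?_⟩
  · rw [Equiv.Perm.mul_apply, Equiv.swap_apply_left]
    apply Equiv.swap_apply_of_ne_of_ne
    · intro h1
      apply h
      have h2 : Equiv.swap k k' k = Equiv.swap k k' l := by rw [Equiv.swap_apply_left]; exact h1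
      exact (Equiv.swap k k').injective h2
    · exact h'
  · rw [Equiv.Perm.mul_apply, Equiv.swap_apply_left]

/-- The quadratic form of an invariant family of weights, as a function of one block of variables with
given sum, is a multiple of the sum of the squares. -/
theorem form_diff (hI : Inv M e w) (x h : Fin r → ℝ) (hs : ∑ k, x k = ∑ k, h k) (k₀ l₀ : Fin r)
    (hkl : k₀ ≠ l₀) :
    (M.map fun μ => (∑ k, e μ k * x k + w μ) ^ 2).sum - (M.map fun μ => (∑ k, e μ k * h k + w μ) ^ 2).sum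
      = (1 / 2 * (M.map fun μ => (e μ k₀ - e μ l₀) ^ 2).sum) * (∑ k, x k ^ 2 - ∑ k, h k ^ 2) := by
  obtain ⟨B, hB⟩ : ∃ B : Fin r → Fin r → ℝ, ∀ k l, B k l = (M.map fun μ => e μ k * e μ l).sum :=
    ⟨_, fun _ _ => rfl⟩
  obtain ⟨c, hc⟩ : ∃ c : Fin r → ℝ, ∀ k, c k = (M.map fun μ => e μ k * w μ).sum := ⟨_, fun _ => rfl⟩
  have hexp : ∀ y : Fin r → ℝ, (M.map fun μ => (∑ k, e μ k * y k + w μ) ^ 2).sum =
      ∑ k, ∑ l, B k l * (y k * y l) + 2 * ∑ k, c k * y k + (M.map fun μ => w μ ^ 2).sum := by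
    intro y
    have e1 : (M.map fun μ => (∑ k, e μ k * y k + w μ) ^ 2).sum =
        (M.map fun μ => (∑ k, ∑ l, (e μ k * e μ l) * (y k * y l)) + (2 * ∑ k, (e μ k * w μ) * y k) + w μ ^ 2).sum := by
      congr 1
      apply Multiset.map_congr rfl
      intro μ _
      have e2 : ∑ k, ∑ l, (e μ k * e μ l) * (y k * y l) = (∑ k, e μ k * y k) * (∑ l, e μ l * y l) := by
        rw [Finset.sum_mul_sum]
        apply Finset.sum_congr rfl
        intro k _
        apply Finset.sum_congr rfl
        intro l _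
        ring
      have e3 : ∑ k, (e μ k * w μ) * y k = (∑ k, e μ k * y k) * w μ := by
        rw [Finset.sum_mul]
        apply Finset.sum_congr rfl
        intro k _
        ring
      rw [e2, e3]
      ring
    rw [e1, Multiset.sum_map_add, Multiset.sum_map_add]
    congr 1
    congr 1
    · rw [Multiset.sum_map_sum]
      apply Finset.sum_congr rfl
      intro k _
      rw [Multiset.sum_map_sum]
      apply Finset.sum_congr rfl
      intro l _
      rw [Multiset.sum_map_mul_right, hB]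
    · rw [Multiset.sum_map_mul_left, Multiset.sum_map_sum]
      congr 1
      apply Finset.sum_congr rfl
      intro k _
      rw [Multiset.sum_map_mul_right, hc]
  have hdiag : ∀ k, B k k = B k₀ k₀ := by
    intro k
    rw [hB, hB]
    have := (hI (Equiv.swap k₀ k)).1 k₀ k₀
    rwa [Equiv.swap_apply_left] at this
  have hoff : ∀ k l, k ≠ l → B k l = B k₀ l₀ := by
    intro k l hne
    obtain ⟨π, h1, h2⟩ := exists_perm k₀ l₀ k l hkl hne
    rw [hB, hB]
    have := (hI π).1 k₀ l₀
    rwa [h1, h2] at this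
  have hcc : ∀ k, c k = c k₀ := by
    intro k
    rw [hc, hc]
    have := (hI (Equiv.swap k₀ k)).2 k₀
    rwa [Equiv.swap_apply_left] at this
  have hval : ∀ y : Fin r → ℝ, ∑ k, ∑ l, B k l * (y k * y l) =
      (B k₀ k₀ - B k₀ l₀) * ∑ k, y k ^ 2 + B k₀ l₀ * (∑ k, y k) ^ 2 := by
    intro y
    have e1 : ∀ k l, B k l = B k₀ l₀ + (if k = l then (B k₀ k₀ - B k₀ l₀) else 0) := by
      intro k l
      by_cases h : k = l
      · subst h
        rw [if_pos rfl, hdiag]
        ring
      · rw [if_neg h, hoff k l h, add_zero]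
    have e2 : ∑ k, ∑ l, B k l * (y k * y l) = ∑ k, ∑ l, B k₀ l₀ * (y k * y l) +
        ∑ k, ∑ l, (if k = l then (B k₀ k₀ - B k₀ l₀) * (y k * y l) else 0) := by
      rw [← Finset.sum_add_distrib]
      apply Finset.sum_congr rfl
      intro k _
      rw [← Finset.sum_add_distrib]
      apply Finset.sum_congr rfl
      intro l _
      rw [e1 k l]
      split_ifs <;> ring
    rw [e2]
    have e3 : ∑ k, ∑ l, B k₀ l₀ * (y k * y l) = B k₀ l₀ * (∑ k, y k) ^ 2 := by
      rw [sq, Finset.sum_mul_sum, Finset.mul_sum]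
      apply Finset.sum_congr rfl
      intro k _
      rw [Finset.mul_sum]
    have e4 : ∑ k, ∑ l, (if k = l then (B k₀ k₀ - B k₀ l₀) * (y k * y l) else 0) =
        (B k₀ k₀ - B k₀ l₀) * ∑ k, y k ^ 2 := by
      rw [Finset.mul_sum]
      apply Finset.sum_congr rfl
      intro k _
      rw [Finset.sum_ite_eq Finset.univ k (fun l => (B k₀ k₀ - B k₀ l₀) * (y k * y l)),
        if_pos (Finset.mem_univ _)]
      ring
    rw [e3, e4]
    ring
  have hlin : ∀ y : Fin r → ℝ, ∑ k, c k * y k = c k₀ * ∑ k, y k := by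
    intro y
    rw [Finset.mul_sum]
    apply Finset.sum_congr rfl
    intro k _
    rw [hcc k]
  have hal : (M.map fun μ => (e μ k₀ - e μ l₀) ^ 2).sum = 2 * (B k₀ k₀ - B k₀ l₀) := by
    have e1 : (M.map fun μ => (e μ k₀ - e μ l₀) ^ 2).sum =
        (M.map fun μ => e μ k₀ * e μ k₀ + (-2) * (e μ k₀ * e μ l₀) + e μ l₀ * e μ l₀).sum := by
      congr 1
      apply Multiset.map_congr rfl
      intro μ _
      ring
    rw [e1, Multiset.sum_map_add, Multiset.sum_map_add, Multiset.sum_map_mul_left, ← hB, ← hB, ← hB,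
      hdiag l₀]
    ring
  rw [hexp x, hexp h, hval x, hval h, hlin x, hlin h, hs, hal]
  ring

end form

end Pool.Agent.V7H31.Ord
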