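import Pool.Agent.V7H31.Ord.Blocks

/-! Newton polygons above Hodge polygons, in terms of absolute values. -/

set_option autoImplicit false

namespace Pool.Agent.V7H31.Ord

open Finset

/-- The sum of the `k` smallest elements of the multiset `H`: the polygon with slopes `H` at `k`. -/
def polygonZ (H : Multiset ℤ) (k : ℕ) : ℤ := ((H.sort (· ≤ ·)).take k).sum

/-- The Newton polygon of a polynomial whose roots have the absolute values `N` (the slope of a root with
absolute value `q ^ (-a)` is `a`) lies above the polygon with slopes `H` and has the same end point. -/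
structure Above (q : ℝ) (N : Multiset ℝ) (H : Multiset ℤ) : Prop where
  card : Multiset.card N = Multiset.card H
  pos : ∀ x ∈ N, 0 < x
  above : ∀ S ≤ N, S.prod ≤ q ^ (-(polygonZ H (Multiset.card S)))
  endpt : N.prod = q ^ (-H.sum)

/-- The Newton polygon of a polynomial whose roots have the absolute values `N` has the slopes `H`. -/
def HasSlopes (q : ℝ) (N : Multiset ℝ) (H : Multiset ℤ) : Prop := N = H.map fun a => q ^ (-a)

/-- the slope of a root of absolute value `t` -/
noncomputable def slope (q t : ℝ) : ℝ := -Real.log t / Real.log q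

theorem slope_zpow {q : ℝ} (hq : 1 < q) (a : ℤ) : slope q (q ^ (-a)) = a := by
  unfold slope
  have h1 : Real.log q ≠ 0 := (Real.log_pos hq).ne'
  rw [Real.log_zpow]
  push_cast
  field_simp

theorem zpow_of_slope {q : ℝ} (hq : 1 < q) {t : ℝ} (ht : 0 < t) (a : ℤ) (h : slope q t = a) :
    t = q ^ (-a) := by
  unfold slope at h
  have h1 := Real.log_pos hq
  rw [div_eq_iff h1.ne'] at h
  apply Real.log_injOn_pos (Set.mem_Ioi.2 ht) (Set.mem_Ioi.2 (zpow_pos (by linarith) _))
  rw [Real.log_zpow]
  push_cast
  linarith

theorem sort_ofFn {r : ℕ} (h : Fin r → ℤ) (hh : Monotone h) :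
    (Finset.univ.val.map h).sort (· ≤ ·) = List.ofFn h := by
  have e : (Finset.univ.val.map h) = (List.ofFn h : Multiset ℤ) := by
    rw [← Fin.univ_val_map]
  rw [e]
  apply List.Perm.eq_of_pairwise (le := (· ≤ ·))
  · intro a b _ _ h1 h2
    exact le_antisymm h1 h2
  · exact Multiset.pairwise_sort _ _
  · rw [List.pairwise_ofFn]
    intro i j hij
    exact hh hij.le
  · rw [← Multiset.coe_eq_coe, Multiset.sort_eq]

theorem polygonZ_eq {r : ℕ} (h : Fin r → ℤ) (hh : Monotone h) (k : ℕ) :
    polygonZ (Finset.univ.val.map h) k = ∑ i : Fin r, if i.1 < k then h i else 0 := by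
  unfold polygonZ
  rw [sort_ofFn h hh, List.sum_take_ofFn, Finset.sum_filter]

theorem prod_slope {q : ℝ} {r : ℕ} (s : Finset (Fin r)) (n : Fin r → ℝ) (hn : ∀ i, 0 < n i) :
    slope q (∏ i ∈ s, n i) = ∑ i ∈ s, slope q (n i) := by
  unfold slope
  rw [Real.log_prod (fun i _ => (hn i).ne'), ← Finset.sum_div, Finset.sum_neg_distrib]

theorem slope_anti {q : ℝ} (hq : 1 < q) {s t : ℝ} (hs : 0 < s) (h : s ≤ t) : slope q t ≤ slope q s := by
  unfold slope
  have h1 := Real.log_pos hq
  have h2 := Real.log_le_log hs h
  gcongr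

theorem aboveSeq_of {q : ℝ} (hq : 1 < q) {r : ℕ} (n : Fin r → ℝ) (h : Fin r → ℤ)
    (hn : Monotone fun k => slope q (n k)) (hh : Monotone h)
    (hA : Above q (Finset.univ.val.map n) (Finset.univ.val.map h)) :
    AboveSeq (fun k => slope q (n k)) (fun k => (h k : ℝ)) := by
  have hpos : ∀ i, 0 < n i := fun i => hA.pos _ (Multiset.mem_map_of_mem n (Finset.mem_univ i))
  refine ⟨hn, fun k hk => ?_, ?_⟩
  · have h1 := hA.above ((Finset.univ.filter fun i : Fin r => i.1 < k).val.map n) (by
      apply Multiset.map_le_map
      exact Finset.val_le_iff.2 (Finset.filter_subset _ _))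
    have hc : Multiset.card ((Finset.univ.filter fun i : Fin r => i.1 < k).val.map n) = k := by
      rw [Multiset.card_map, Finset.card_val]
      have h2 : ∑ i : Fin r, (if i.1 < k then 1 else 0) = k := by
        rw [Fin.sum_univ_eq_sum_range (fun i => if i < k then 1 else 0) r, ← Finset.sum_filter]
        have h3 : (Finset.range r).filter (fun i => i < k) = Finset.range k := by
          ext i
          simp only [mem_range, mem_filter]
          omega
        rw [h3]
        simp
      rw [Finset.card_filter]
      exact h2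
    rw [hc, polygonZ_eq h hh] at h1
    have h2 : ((Finset.univ.filter fun i : Fin r => i.1 < k).val.map n).prod =
        ∏ i ∈ Finset.univ.filter (fun i : Fin r => i.1 < k), n i := rfl
    rw [h2] at h1
    have h3 := slope_anti hq (Finset.prod_pos fun i _ => hpos i) h1
    rw [slope_zpow hq, prod_slope _ _ hpos, Finset.sum_filter] at h3
    push_cast at h3
    exact h3
  · have h1 := hA.endpt
    have h2 : (Finset.univ.val.map n).prod = ∏ i, n i := rfl
    have h3 : (Finset.univ.val.map h).sum = ∑ i, h i := rfl
    rw [h2, h3] at h1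
    have h4 : slope q (∏ i, n i) = ((∑ i, h i : ℤ) : ℝ) := by rw [h1, slope_zpow hq]
    rw [prod_slope _ _ hpos] at h4
    push_cast at h4
    exact h4

theorem hasSlopes_of {q : ℝ} (hq : 1 < q) {r : ℕ} (n : Fin r → ℝ) (h : Fin r → ℤ) (hn : ∀ i, 0 < n i)
    (he : (fun k => slope q (n k)) = fun k => (h k : ℝ)) :
    HasSlopes q (Finset.univ.val.map n) (Finset.univ.val.map h) := by
  unfold HasSlopes
  rw [Multiset.map_map]
  apply Multiset.map_congr rfl
  intro k _
  exact zpow_of_slope hq (hn k) (h k) (congrFun he k)

/-- sorting an enumeration by a real function -/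
theorem exists_sorted {α : Type} {r : ℕ} (s : Multiset α) (hs : Multiset.card s = r) (f : α → ℝ) :
    ∃ x : Fin r → α, Finset.univ.val.map x = s ∧ Monotone fun k => f (x k) := by
  obtain ⟨l, rfl⟩ := Quot.exists_rep s
  change l.length = r at hs
  subst hs
  refine ⟨fun k => l.get (Tuple.sort (fun k => f (l.get k)) k), ?_,
    fun a b hab => Tuple.monotone_sort (fun k => f (l.get k)) hab⟩
  have h1 : Finset.univ.val.map (fun k => l.get (Tuple.sort (fun k => f (l.get k)) k)) =
      (Finset.univ.val.map (Tuple.sort (fun k => f (l.get k)))).map l.get := by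
    rw [Multiset.map_map]
    rfl
  have h2 : Finset.univ.val.map (Tuple.sort (fun k => f (l.get k))) = (Finset.univ : Finset (Fin l.length)).val := by
    have := Finset.map_univ_equiv (Tuple.sort (fun k => f (l.get k)))
    exact congrArg Finset.val this
  rw [h1, h2]
  change Finset.univ.val.map l.get = (l : Multiset α)
  rw [Fin.univ_val_map, List.ofFn_get]

end Pool.Agent.V7H31.Ord
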