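import Pool.Agent.V7H31.Ord.Poly
import Pool.Agent.W850.Ord.LowDens

/-! Systems of Frobenius eigenvalues, tensor constructions, and the saturated tensor closure. -/

set_option autoImplicit false

namespace Pool.Agent.V7H31.Ord

open NumberField IsDedekindDomain Polynomial Finset
open Pool.Agent.W401.Cheb Pool.Agent.W528.Ord Pool.Agent.R915.Ord Pool.Agent.W850.Ord
open MultSystem (IsDeg1 IsOver)

/-- A system of eigenvalues over `K`: for every place a multiset of algebraic numbers (the eigenvalues of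
the geometric Frobenius element), and the multiset of the Hodge-Tate weights. -/
structure Sys (K : Type) [Field K] [NumberField K] where
  /-- the Frobenius eigenvalues -/
  R : HeightOneSpectrum (𝓞 K) → Multiset (AlgebraicClosure K)
  /-- the Hodge-Tate weights -/
  H : Multiset ℤ

section

variable {K : Type} [Field K] [NumberField K]

/-- `τ` is an embedding of the field of algebraic numbers in `ℚ̄_p` which induces the place `v` of `K`. -/
def Induces {p : ℕ} [Fact p.Prime] (τ : AlgebraicClosure K →+* PadicAlgCl p)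
    (v : HeightOneSpectrum (𝓞 K)) : Prop :=
  ∃ Q : Ideal (𝓞 (AlgebraicClosure K)), IsOver Q v ∧
    ∀ x : 𝓞 (AlgebraicClosure K), x ∈ Q ↔ ‖τ (x : AlgebraicClosure K)‖ < 1

/-- Mazur's inequality: for all `τ` which induce `v` the Newton polygon at `v` (normalised by
`v (N v) = 1`) lies above the Hodge polygon, with the same end point. -/
def NewtonAboveHodge (X : Sys K) (v : HeightOneSpectrum (𝓞 K)) : Prop :=
  ∀ (p : ℕ) [Fact p.Prime] (τ : AlgebraicClosure K →+* PadicAlgCl p), Induces τ v →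
    Above (Ideal.absNorm v.asIdeal : ℝ) ((X.R v).map fun y => ‖τ y‖) X.H

/-- `v` is ordinary for `X`: for all `τ` which induce `v` the Newton polygon is the Hodge polygon. -/
def OrdAt (X : Sys K) (v : HeightOneSpectrum (𝓞 K)) : Prop :=
  ∀ (p : ℕ) [Fact p.Prime] (τ : AlgebraicClosure K →+* PadicAlgCl p), Induces τ v →
    HasSlopes (Ideal.absNorm v.asIdeal : ℝ) ((X.R v).map fun y => ‖τ y‖) X.H

/-- The system `X` is the tensor construction with the weights `M` applied to the systems
`V 0, …, V (m - 1)` of ranks `r 0, …, r (m - 1)`, at the places in `Pl`: its Frobenius eigenvalues are the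
products of the `x i k ^ μ i k`, where the `x i k` are the Frobenius eigenvalues of `V i`, and its Hodge-Tate
weights are the sums of the `μ i k * h i k`. The multiset `M` of weights is symmetric in each block. -/
structure IsTensor (Pl : Set (HeightOneSpectrum (𝓞 K))) {m : ℕ} (r : Fin m → ℕ) (M : Multiset (Wt r))
    (V : Fin m → Sys K) (X : Sys K) : Prop where
  symm : Symm M
  cardH : ∀ i, Multiset.card (V i).H = r i
  cardR : ∀ i, ∀ v ∈ Pl, Multiset.card ((V i).R v) = r i
  ne_zero : ∀ i, ∀ v ∈ Pl, ∀ y ∈ (V i).R v, y ≠ 0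
  slopes : ∀ h : (i : Fin m) → Fin (r i) → ℤ, (∀ i, Finset.univ.val.map (h i) = (V i).H) →
    X.H = M.map fun μ => ∑ i, ∑ k, μ i k * h i k
  roots : ∀ v ∈ Pl, ∀ x : (i : Fin m) → Fin (r i) → AlgebraicClosure K,
    (∀ i, Finset.univ.val.map (x i) = (V i).R v) → X.R v = M.map fun μ => ∏ i, ∏ k, x i k ^ μ i k

/-- the slope of the value of a weight -/
theorem slope_weight {q : ℝ} {p : ℕ} [Fact p.Prime] (τ : AlgebraicClosure K →+* PadicAlgCl p) {m : ℕ}
    {r : Fin m → ℕ} (μ : Wt r) (x : (i : Fin m) → Fin (r i) → AlgebraicClosure K)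
    (hx : ∀ i k, x i k ≠ 0) :
    slope q ‖τ (∏ i, ∏ k, x i k ^ μ i k)‖ = pair μ fun i k => slope q ‖τ (x i k)‖ := by
  have hne : ∀ i k, ‖τ (x i k)‖ ≠ 0 := fun i k => by
    rw [norm_ne_zero_iff]
    exact (map_ne_zero τ).2 (hx i k)
  have e : ‖τ (∏ i, ∏ k, x i k ^ μ i k)‖ = ∏ i, ∏ k, ‖τ (x i k)‖ ^ μ i k := by
    rw [map_prod, norm_prod]
    apply Finset.prod_congr rfl
    intro i _
    rw [map_prod, norm_prod]
    apply Finset.prod_congr rfl
    intro k _
    rw [map_zpow₀, norm_zpow]
  rw [e]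
  unfold slope pair
  rw [Real.log_prod (fun i _ => Finset.prod_ne_zero_iff.2 fun k _ => zpow_ne_zero _ (hne i k)),
    ← Finset.sum_neg_distrib, Finset.sum_div]
  apply Finset.sum_congr rfl
  intro i _
  rw [Real.log_prod (fun k _ => zpow_ne_zero _ (hne i k)), ← Finset.sum_neg_distrib, Finset.sum_div]
  apply Finset.sum_congr rfl
  intro k _
  rw [Real.log_zpow]
  ring

theorem one_lt_norm (v : HeightOneSpectrum (𝓞 K)) : (1 : ℝ) < (Ideal.absNorm v.asIdeal : ℝ) := by
  have h1 : Ideal.absNorm v.asIdeal ≠ 0 := by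
    rw [Ne, Ideal.absNorm_eq_zero_iff]
    exact v.ne_bot
  have h2 : Ideal.absNorm v.asIdeal ≠ 1 := by
    rw [Ne, Ideal.absNorm_eq_one_iff]
    exact v.isPrime.ne_top
  have h3 : 1 < Ideal.absNorm v.asIdeal := by omega
  exact_mod_cast h3

/-- sorted enumerations -/
theorem exists_enum {Pl : Set (HeightOneSpectrum (𝓞 K))} {m : ℕ} {r : Fin m → ℕ} {M : Multiset (Wt r)}
    {V : Fin m → Sys K} {X : Sys K} (hT : IsTensor Pl r M V X) {v : HeightOneSpectrum (𝓞 K)} (hv : v ∈ Pl)
    (f : AlgebraicClosure K → ℝ) :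
    ∃ (x : (i : Fin m) → Fin (r i) → AlgebraicClosure K) (h : (i : Fin m) → Fin (r i) → ℤ),
      (∀ i, Finset.univ.val.map (x i) = (V i).R v) ∧ (∀ i, Finset.univ.val.map (h i) = (V i).H) ∧
      (∀ i, Monotone fun k => f (x i k)) ∧ ∀ i, Monotone (h i) := by
  choose x hx1 hx2 using fun i => exists_sorted ((V i).R v) (hT.cardR i v hv) f
  choose h hh1 hh2 using fun i => exists_sorted (V i).H (hT.cardH i) (fun a : ℤ => (a : ℝ))
  exact ⟨x, h, hx1, hh1, hx2, fun i a b hab => Int.cast_le.1 (hh2 i hab)⟩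

/-- **Tensor constructions preserve ordinariness.** -/
theorem ord_tensor {Pl : Set (HeightOneSpectrum (𝓞 K))} {m : ℕ} {r : Fin m → ℕ} {M : Multiset (Wt r)}
    {V : Fin m → Sys K} {X : Sys K} (hT : IsTensor Pl r M V X) {v : HeightOneSpectrum (𝓞 K)} (hv : v ∈ Pl)
    {p : ℕ} [Fact p.Prime] (τ : AlgebraicClosure K →+* PadicAlgCl p)
    (h : ∀ i, HasSlopes (Ideal.absNorm v.asIdeal : ℝ) (((V i).R v).map fun y => ‖τ y‖) (V i).H) :
    HasSlopes (Ideal.absNorm v.asIdeal : ℝ) ((X.R v).map fun y => ‖τ y‖) X.H := by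
  obtain ⟨q, hq⟩ : ∃ q : ℝ, q = (Ideal.absNorm v.asIdeal : ℝ) := ⟨_, rfl⟩
  have hq1 : 1 < q := hq ▸ one_lt_norm v
  rw [← hq] at h ⊢
  obtain ⟨x, -, hx, -, -, -⟩ := exists_enum hT hv fun _ => 0
  have hx0 : ∀ i k, x i k ≠ 0 := fun i k =>
    hT.ne_zero i v hv _ (by rw [← hx i]; exact Multiset.mem_map_of_mem _ (Finset.mem_univ k))
  -- the slopes are integers
  have hint : ∀ i k, ∃ a : ℤ, ‖τ (x i k)‖ = q ^ (-a) := by
    intro i k
    have h1 : ‖τ (x i k)‖ ∈ ((V i).R v).map fun y => ‖τ y‖ := by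
      apply Multiset.mem_map_of_mem
      rw [← hx i]
      exact Multiset.mem_map_of_mem _ (Finset.mem_univ k)
    rw [h i] at h1
    obtain ⟨a, -, ha⟩ := Multiset.mem_map.1 h1
    exact ⟨a, ha.symm⟩
  choose a ha using hint
  have hmap : ∀ i, Finset.univ.val.map (a i) = (V i).H := by
    intro i
    have h1 := h i
    unfold HasSlopes at h1
    rw [← hx i, Multiset.map_map] at h1
    have h2 := congrArg (Multiset.map fun t : ℝ => ⌊slope q t⌋) h1
    rw [Multiset.map_map, Multiset.map_map] at h2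
    have e1 : (fun b : ℤ => ((fun t : ℝ => ⌊slope q t⌋) ∘ fun a : ℤ => q ^ (-a)) b) = fun b => b := by
      funext b
      simp only [Function.comp]
      rw [slope_zpow hq1, Int.floor_intCast]
    have e2 : (V i).H.map ((fun t : ℝ => ⌊slope q t⌋) ∘ fun a : ℤ => q ^ (-a)) = (V i).H := by
      conv_rhs => rw [← Multiset.map_id (V i).H]
      apply Multiset.map_congr rfl
      intro b _
      exact congrFun e1 b
    rw [e2] at h2
    rw [← h2]
    apply Multiset.map_congr rfl
    intro k _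
    simp only [Function.comp]
    rw [ha i k, slope_zpow hq1, Int.floor_intCast]
  rw [hT.slopes a hmap, hT.roots v hv x hx]
  unfold HasSlopes
  rw [Multiset.map_map, Multiset.map_map]
  apply Multiset.map_congr rfl
  intro μ _
  simp only [Function.comp]
  apply zpow_of_slope hq1
  · rw [norm_pos_iff]
    apply (map_ne_zero τ).2
    exact Finset.prod_ne_zero_iff.2 fun i _ => Finset.prod_ne_zero_iff.2 fun k _ => zpow_ne_zero _ (hx0 i k)
  · rw [slope_weight τ μ x hx0]
    unfold pair
    push_cast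
    apply Finset.sum_congr rfl
    intro i _
    apply Finset.sum_congr rfl
    intro k _
    rw [ha i k, slope_zpow hq1]

/-- **Tensor roots.** If a tensor construction of the systems `V i` is ordinary at `v`, then every `V i` in
which the construction is not scalar is ordinary at `v`, provided that the Newton polygons of the `V i` lie
above the Hodge polygons. -/
theorem ord_root {Pl : Set (HeightOneSpectrum (𝓞 K))} {m : ℕ} {r : Fin m → ℕ} {M : Multiset (Wt r)}
    {V : Fin m → Sys K} {X : Sys K} (hT : IsTensor Pl r M V X) {v : HeightOneSpectrum (𝓞 K)} (hv : v ∈ Pl)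
    {p : ℕ} [Fact p.Prime] (τ : AlgebraicClosure K →+* PadicAlgCl p)
    (hA : ∀ i, Above (Ideal.absNorm v.asIdeal : ℝ) (((V i).R v).map fun y => ‖τ y‖) (V i).H)
    (hX : HasSlopes (Ideal.absNorm v.asIdeal : ℝ) ((X.R v).map fun y => ‖τ y‖) X.H)
    (i : Fin m) (hi : NonScal M i ∨ r i ≤ 1) :
    HasSlopes (Ideal.absNorm v.asIdeal : ℝ) (((V i).R v).map fun y => ‖τ y‖) (V i).H := by
  obtain ⟨q, hq⟩ : ∃ q : ℝ, q = (Ideal.absNorm v.asIdeal : ℝ) := ⟨_, rfl⟩
  have hq1 : 1 < q := hq ▸ one_lt_norm v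
  rw [← hq] at hX ⊢
  simp only [← hq] at hA
  obtain ⟨x, h, hx, hh, hxm, hhm⟩ := exists_enum hT hv fun y => slope q ‖τ y‖
  have hx0 : ∀ i k, x i k ≠ 0 := fun i k =>
    hT.ne_zero i v hv _ (by rw [← hx i]; exact Multiset.mem_map_of_mem _ (Finset.mem_univ k))
  have hab : ∀ j, AboveSeq (fun k => slope q ‖τ (x j k)‖) (fun k => (h j k : ℝ)) := by
    intro j
    apply aboveSeq_of hq1 (fun k => ‖τ (x j k)‖) (h j) (hxm j) (hhm j)
    have h1 := hA j
    rw [← hx j, ← hh j, Multiset.map_map] at h1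
    exact h1
  have hQ : Q M (fun j k => (h j k : ℝ)) = Q M fun j k => slope q ‖τ (x j k)‖ := by
    unfold HasSlopes at hX
    rw [hT.slopes h hh, hT.roots v hv x hx, Multiset.map_map, Multiset.map_map] at hX
    have h2 := congrArg (fun s : Multiset ℝ => (s.map fun t : ℝ => slope q t ^ 2).sum) hX
    simp only [Multiset.map_map] at h2
    unfold Q
    refine Eq.trans ?_ (h2.symm.trans ?_)
    · congr 1
      apply Multiset.map_congr rfl
      intro μ _
      simp only [Function.comp]
      rw [slope_zpow hq1]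
      congr 1
      unfold pair
      push_cast
      rfl
    · congr 1
      apply Multiset.map_congr rfl
      intro μ _
      simp only [Function.comp]
      rw [slope_weight τ μ x hx0]
  have key : (fun k => slope q ‖τ (x i k)‖) = fun k => (h i k : ℝ) := by
    rcases hi with hi | hi
    · exact tensor_root hT.symm (fun j k => slope q ‖τ (x j k)‖) (fun j k => (h j k : ℝ)) hab hQ.le i hi
    · apply (hab i).eq_of_small
      rintro ⟨k, l, hkl⟩
      apply hkl
      apply Fin.ext
      have := k.2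
      have := l.2
      omega
  have h3 := hasSlopes_of hq1 (fun k => ‖τ (x i k)‖) (h i) (fun k => by
    rw [norm_pos_iff]
    exact (map_ne_zero τ).2 (hx0 i k)) key
  rw [hh i] at h3
  rw [← hx i, Multiset.map_map]
  exact h3

end

end Pool.Agent.V7H31.Ord
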